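import Mathlib
import Pool.Agent.P.MP_75c9b5_nt.Main

set_option autoImplicit false

namespace Pool.Agent.Results.MP_75c9b5_nt.ShortestSum

open NumberField

/-- `od K`: the least odd `k ≥ 3` such that some `k` units of the ring of integers of `K` sum to
zero (`⊤` if there is none). -/
noncomputable def od (K : Type) [Field K] : ℕ∞ :=
  sInf ((fun k : ℕ => (k : ℕ∞)) ''
    {k : ℕ | Odd k ∧ 3 ≤ k ∧ ∃ ε : Fin k → (RingOfIntegers K)ˣ,
      ∑ i, (ε i : RingOfIntegers K) = 0})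

/-- `ev K`: the least even `k ≥ 4` such that some `k` units of the ring of integers of `K` sum to
zero with no proper nonempty vanishing subsum (`⊤` if there is none). -/
noncomputable def ev (K : Type) [Field K] : ℕ∞ :=
  sInf ((fun k : ℕ => (k : ℕ∞)) ''
    {k : ℕ | Even k ∧ 4 ≤ k ∧ ∃ ε : Fin k → (RingOfIntegers K)ˣ,
      ∑ i, (ε i : RingOfIntegers K) = 0 ∧
      ∀ I : Finset (Fin k), I.Nonempty → I ≠ Finset.univ →
        ∑ i ∈ I, (ε i : RingOfIntegers K) ≠ 0})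

/-- `ell K = min (od K) (ev K)`. -/
noncomputable def ell (K : Type) [Field K] : ℕ∞ := min (od K) (ev K)

theorem result : ∀ t : ℤ, t ≠ 0 → t ≠ 1 →
    ∃ (K : Type) (_ : Field K) (_ : NumberField K) (k : ℕ),
      (k : ℤ) = 4 * t ^ 4 - 4 * t + 2 ∧ ell K = (k : ℕ∞) := by
  intro t h0 h1
  obtain ⟨K, iF, iN, k, hk, hk4, hod, hev, hex⟩ := Pool.Agent.P.MP_75c9b5_nt.main t h0 h1
  refine ⟨K, iF, iN, k, hk, ?_⟩
  have hke : Even k := by
    have : (k : ℤ) = 2 * (2 * t ^ 4 - 2 * t + 1) := by rw [hk]; ring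
    exact ⟨(2 * t ^ 4 - 2 * t + 1).toNat, by omega⟩
  have e1 : (k : ℕ∞) ≤ od K := by
    apply le_sInf
    rintro _ ⟨l, ⟨hl, -, ε, hε⟩, rfl⟩
    exact Nat.cast_le.2 (hod l ε hl hε)
  have e2 : ev K = k := by
    apply le_antisymm
    · exact sInf_le ⟨k, ⟨hke, hk4, hex⟩, rfl⟩
    · apply le_sInf
      rintro _ ⟨l, ⟨-, hl, ε, hε, hno⟩, rfl⟩
      exact Nat.cast_le.2 (hev l ε hl hε hno)
  unfold ell
  rw [e2]
  exact min_eq_right e1

end Pool.Agent.Results.MP_75c9b5_nt.ShortestSum
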